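import Mathlib
import Pool.Agent.Lib_helper37.TZ.Bip

/-!
# `τ⁽²⁾(H) ≤ (14/5) ν⁽²⁾(H)` for every finite 3-uniform hypergraph

`H` is a finite set of 3-element subsets of `V`. There are a set `C` of 2-element subsets of `V`
such that every member of `H` contains a member of `C`, and a set `M ⊆ H` any two members of which
share at most one element, with `5 |C| ≤ 14 |M|`. So `τ⁽²⁾(H) ≤ (14/5) ν⁽²⁾(H)`, that is,
`h(3,2) ≤ 14/5 = 2.8`; the previous bound is `66/23 = 2.869...` (Haxell 1999).

The proof (Pool/Agent/Lib_helper37/TZ) compares four covers; `P` is a maximum packing,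
`A` a maximum packing of triples with exactly one pair in `E(P)`, `W ∪ R` an optimal packing
of the triples that avoid `E(A)`.
-/

set_option autoImplicit false

namespace Pool.Agent.Results.MP_3ed636_co.FourteenFifths

theorem result {V : Type*} [DecidableEq V] (H : Finset (Finset V)) (hH : ∀ e ∈ H, e.card = 3) :
    ∃ C : Finset (Finset V), ∃ M : Finset (Finset V),
      (∀ c ∈ C, c.card = 2) ∧ (∀ e ∈ H, ∃ c ∈ C, c ⊆ e) ∧
      M ⊆ H ∧ (M : Set (Finset V)).Pairwise (fun e f => (e ∩ f).card < 2) ∧
      5 * C.card ≤ 14 * M.card :=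
  Pool.Agent.TZ.fourteen_fifths H hH

end Pool.Agent.Results.MP_3ed636_co.FourteenFifths
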